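import Pool.Agent.H37.Mart.Final

set_option autoImplicit false

/-!
`R(3, G) ≤ k + 20000 k d / log (d / 2)` for every `d`-regular graph with `k` vertices, `d ≥ 3`.
In particular Sidorenko's conjecture `R(3, G) ≤ k + m` holds for all `d`-regular graphs with
`d ≥ 2 exp 40000`.
-/

namespace Pool.Agent.Results.MP_be0ce5_co.RegularLog

open Finset

/-- Every `d`-regular graph `G` with `k` vertices, `d ≥ 3`, satisfies
`R(3, G) ≤ k + 20000 k d / log (d / 2)` (rounded up to the next integer `N`). -/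
theorem result : ∀ (V : Type) [Fintype V] (G : SimpleGraph V) [DecidableRel G.Adj] (d N : ℕ),
    G.IsRegularOfDegree d → 3 ≤ d →
    (Fintype.card V : ℝ) + 20000 * ((Fintype.card V : ℝ) * d) / Real.log ((d : ℝ) / 2) ≤ (N : ℝ) →
      ∀ H : SimpleGraph (Fin N), ¬ H.CliqueFree 3 ∨ G.IsContained Hᶜ := by
  intro V _ G _ d N hreg hd hN H
  classical
  have hm : 2 * G.edgeSet.ncard = Fintype.card V * d := by
    have h1 := G.sum_degrees_eq_twice_card_edges
    have h2 : ∑ v, G.degree v = Fintype.card V * d := by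
      rw [Finset.sum_congr rfl (fun v _ => hreg v), Finset.sum_const, smul_eq_mul, Finset.card_univ]
    have h3 : G.edgeSet.ncard = G.edgeFinset.card := by
      rw [← SimpleGraph.coe_edgeFinset, Set.ncard_coe_finset]
    rw [h3, ← h1, h2]
  by_cases hk : Fintype.card V = 0
  · right
    have hV : IsEmpty V := Fintype.card_eq_zero_iff.1 hk
    exact ⟨⟨⟨fun v => isEmptyElim v, fun {a} => isEmptyElim a⟩, fun a => isEmptyElim a⟩⟩
  have hkpos : 0 < Fintype.card V := Nat.pos_of_ne_zero hk
  have hkr : (0 : ℝ) < Fintype.card V := by exact_mod_cast hkpos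
  have hmr : 2 * (G.edgeSet.ncard : ℝ) = (Fintype.card V : ℝ) * d := by exact_mod_cast hm
  have hkm : Fintype.card V < G.edgeSet.ncard := by nlinarith
  have e1 : (G.edgeSet.ncard : ℝ) / (Fintype.card V : ℝ) = (d : ℝ) / 2 := by
    rw [div_eq_div_iff hkr.ne' (by norm_num)]
    linarith
  have e2 : 40000 * (G.edgeSet.ncard : ℝ) = 20000 * ((Fintype.card V : ℝ) * d) := by
    rw [← hmr]; ring
  rcases Pool.Agent.H37.Mart.ramsey_log V G N hkm (by rw [e1, e2]; exact hN) H with h | h
  · exact Or.inl h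
  · right
    obtain ⟨f, hf⟩ := h
    exact ⟨⟨f, hf⟩⟩

end Pool.Agent.Results.MP_be0ce5_co.RegularLog
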